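import Mathlib
import Pool.Agent.Lib.MP_82c165_ag.TransferE

/-!
# Rationality of moduli spaces of degree `d` endomorphisms of `P^N`

Let `k` be an algebraically closed field of characteristic zero (for instance the complex numbers).
`moduliFunctionField k N d` is the field of rational functions on the space of `(N + 1)`-tuples
`f = (f_0, ..., f_N)` of forms of degree `d` in `N + 1` variables which are invariant under
`f ↦ t f` for `t` in `k^*` and under `f ↦ g ∘ f ∘ g⁻¹` for `g` in `GL_{N+1}(k)`. It is the field of
`PGL_{N+1}`-invariant rational functions on `End^N_d` (a nonempty invariant open subset of the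
projective space of all such `f`), that is, the function field of `M^N_d`.

We prove that it is purely transcendental over `k` of transcendence degree
`dim M^N_d = (N + 1) * binom(N + d, d) - 1 - N (N + 2)` whenever, for some `a` in `{1, 2, 3}`,
`a` divides `N + 1` and `d - 1` and `(N + 1) / a` is coprime to `d - 1`. For `a = 1` the condition
is `gcd(N + 1, d - 1) = 1`. For `N = 2` one of `a = 1`, `a = 3` always works (`a = 3` if `3`
divides `d - 1`, `a = 1` otherwise), so that `M^2_d` is rational for every `d ≥ 2`.
-/

namespace Pool.Agent.Results.MP_82c165_ag.SmallIndexRational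

open Pool.Agent.Lib.MP_82c165_ag

universe u

/-- If `a ≤ 3` divides `N + 1` and `d - 1` and `gcd((N + 1) / a, d - 1) = 1`, then the function
field of `M^N_d` is purely transcendental of transcendence degree `dim M^N_d`. -/
theorem result (k : Type u) [Field k] [IsAlgClosed k] [CharZero k] (N d a : ℕ)
    (hN : 2 ≤ N) (hd : 2 ≤ d) (ha : 1 ≤ a) (ha3 : a ≤ 3) (h1 : a ∣ N + 1) (h2 : a ∣ d - 1)
    (hco : Nat.Coprime ((N + 1) / a) (d - 1)) :
    Nonempty (moduliFunctionField k N d ≃ₐ[k]
      MvRatFun k (Fin ((N + 1) * (N + d).choose d - 1 - N * (N + 2)))) :=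
  rational_small hN hd ha ha3 h1 h2 hco

/-- The case of the projective plane. -/
example (k : Type u) [Field k] [IsAlgClosed k] [CharZero k] (d : ℕ) (hd : 2 ≤ d) :
    Nonempty (moduliFunctionField k 2 d ≃ₐ[k]
      MvRatFun k (Fin ((2 + 1) * (2 + d).choose d - 1 - 2 * (2 + 2)))) := by
  by_cases h : 3 ∣ d - 1
  · exact result k 2 d 3 le_rfl hd (by norm_num) le_rfl (by norm_num) h (by simp)
  · refine result k 2 d 1 le_rfl hd le_rfl (by norm_num) (one_dvd _) (one_dvd _) ?_
    rw [Nat.div_one]
    exact (Nat.Prime.coprime_iff_not_dvd Nat.prime_three).2 h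

end Pool.Agent.Results.MP_82c165_ag.SmallIndexRational
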